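import Pool.Agent.MP_a1b43b_an.Mg.Hedge

open scoped ContDiff

namespace Pool.Agent.Results.MP_a1b43b_an.PeriodicOrbit

/-- A smooth vector field on Euclidean `ℝ³` whose only zero is the origin, all of whose Jacobian
eigenvalues have negative real part at every point, and which has a periodic orbit that is a simple
closed curve avoiding the origin. -/
theorem result :
    ∃ F : EuclideanSpace ℝ (Fin 3) → EuclideanSpace ℝ (Fin 3),
      ContDiff ℝ ∞ F ∧ (∀ x, F x = 0 ↔ x = 0) ∧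
      (∀ (x : EuclideanSpace ℝ (Fin 3)) (z : ℂ) (v : Fin 3 → ℂ), v ≠ 0 →
        (∀ i, ∑ j, ((fderiv ℝ F x (EuclideanSpace.single j 1) i : ℝ) : ℂ) * v j = z * v i) →
        z.re < 0) ∧
      ∃ (γ : ℝ → EuclideanSpace ℝ (Fin 3)) (T : ℝ), 0 < T ∧
        (∀ t, HasDerivAt γ (F (γ t)) t) ∧ Function.Periodic γ T ∧
        Set.InjOn γ (Set.Ico 0 T) ∧ ∀ t, γ t ≠ 0 :=
  Pool.Agent.MP_a1b43b_an.strong_euclid

end Pool.Agent.Results.MP_a1b43b_an.PeriodicOrbit
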